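import Mathlib
import Pool.Agent.TH727.NotSimpleMain

/-!
# The continuous theory of the hyperfinite II_1 factor is not simple

In the tracial ultrapower of `R` there are a set `B` and an element `a` whose type over `B` divides
over every separable subset of `B`: for branches `x` of the binary tree let `g x` and `y x j` be the
classes of the sequences of the minimal projections `e 0 0` of the tensor factors with indices
`(x|n, 0)` and `(x|n, j + 1)`, let `B` consist of the `g x` and the `y x 0` and let `a` be the class of
a sequence of unitaries which exchange the tensor factors `(s, 0)` and `(s, 1)` for all `s` of
length `n`. Then `a (g x) a* = y x 0` for all `x`, the sequence `y x 0, y x 1, …` is indiscernible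
over `B` without `y x 0`, and `X (g x) X* = y x j` has a solution `X` for at most one `j`.
-/

set_option autoImplicit false

namespace Pool.Agent.Results.MP_baa3fb_lc.NotSimple

open Pool.Agent.H504R3.S Pool.Agent.TH727

/-- The continuous theory of the hyperfinite II_1 factor is not simple: there are a model, a set `B`
in it and a type over `B` which divides over every separable subset of `B`. -/
theorem result (R : Str) (hR : R.IsHyperfinite) : ¬ IsSimpleTheory R :=
  not_simple R hR

end Pool.Agent.Results.MP_baa3fb_lc.NotSimple
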